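import Pool.Agent.R823.FX.Stm

/-! Piece DECN of PROJECT FX (MP_9085a3_al): a cyclic factor of order `2^k` of multiplicity one
excludes fixed-point-free automorphisms. -/

namespace Pool.Agent.R823.FX

namespace DECNx

lemma div_aux {N m c : ℕ} (hN : N = m * c) (hm : 0 < m) (hc : 0 < c) (x : ZMod N)
    (h : m • x = 0) : ∃ j : ℕ, x = ((c * j : ℕ) : ZMod N) := by
  have : NeZero N := ⟨by rw [hN]; positivity⟩
  have hx : ((x.val : ℕ) : ZMod N) = x := ZMod.natCast_zmod_val x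
  have h1 : ((m * x.val : ℕ) : ZMod N) = 0 := by
    rw [Nat.cast_mul, hx, ← nsmul_eq_mul]; exact h
  rw [ZMod.natCast_eq_zero_iff] at h1
  have h2 : m * c ∣ m * x.val := (dvd_of_eq hN.symm).trans h1
  obtain ⟨j, hj⟩ := Nat.dvd_of_mul_dvd_mul_left hm h2
  exact ⟨j, by rw [← hj, hx]⟩

end DECNx

open DECNx in
theorem sDECN : S_DECN := by
  classical
  intro ι _ p e hp he k hk hcard α
  obtain ⟨hs, ⟨⟨i0, hi0⟩⟩⟩ := Nat.card_eq_one_iff_unique.1 hcard
  have huniq : ∀ i, p i ^ e i = 2 ^ k → i = i0 := fun i hi =>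
    congrArg Subtype.val (hs.elim ⟨i, hi⟩ ⟨i0, hi0⟩)
  by_contra hno
  push Not at hno
  have hkk : 2 ^ k = 2 * 2 ^ (k - 1) := by
    rw [← pow_succ']; congr 1; omega
  let U : Set (∀ i, ZMod (p i ^ e i)) :=
    {x | 2 • x = 0 ∧ ∃ z : (∀ i, ZMod (p i ^ e i)), x = 2 ^ (k - 1) • z}
  have hb : ∀ z : (∀ i, ZMod (p i ^ e i)), (2 ^ k • z) i0 = 0 := by
    intro z
    rw [Pi.smul_apply, nsmul_eq_mul, ← hi0, ZMod.natCast_self, zero_mul]
  have ha : ∀ x ∈ U, x i0 = 0 → ∃ z : (∀ i, ZMod (p i ^ e i)), x = 2 ^ k • z := by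
    rintro x ⟨h2, z, hz⟩ h0
    have hall : ∀ i, ∃ w : ZMod (p i ^ e i), x i = 2 ^ k • w := by
      intro i
      by_cases hi : i = i0
      · subst hi
        exact ⟨0, by rw [h0, smul_zero]⟩
      · by_cases hp2 : p i = 2
        · have hne : e i ≠ k := fun h => hi (huniq i (by rw [hp2, h]))
          rcases lt_or_gt_of_ne hne with hlt | hgt
          · refine ⟨0, ?_⟩
            have h3 : ((2 ^ (k - 1) : ℕ) : ZMod (p i ^ e i)) = 0 := by
              rw [ZMod.natCast_eq_zero_iff, hp2]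
              exact pow_dvd_pow 2 (by omega)
            rw [smul_zero, hz, Pi.smul_apply, nsmul_eq_mul, h3, zero_mul]
          · obtain ⟨j, hj⟩ := div_aux (N := p i ^ e i) (m := 2) (c := 2 ^ (e i - 1))
              (by rw [hp2, ← pow_succ']; congr 1; have := he i; omega) two_pos (by positivity)
              (x i) (by have := congrFun h2 i; rwa [Pi.smul_apply] at this)
            refine ⟨((2 ^ (e i - 1 - k) * j : ℕ) : ZMod _), ?_⟩
            rw [hj, nsmul_eq_mul, ← Nat.cast_mul]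
            congr 1
            rw [← mul_assoc, ← pow_add]
            congr 2
            omega
        · have hcop : Nat.Coprime (2 ^ k) (p i ^ e i) :=
            Nat.Coprime.pow _ _ ((Nat.coprime_primes Nat.prime_two (hp i)).2 (Ne.symm hp2))
          refine ⟨((2 ^ k : ℕ) : ZMod (p i ^ e i))⁻¹ * x i, ?_⟩
          rw [nsmul_eq_mul, ← mul_assoc, ZMod.coe_mul_inv_eq_one _ hcop, one_mul]
    choose w hw using hall
    exact ⟨w, funext hw⟩
  have hc : ∀ x ∈ U, x i0 = 0 ∨ x i0 = ((2 ^ (k - 1) : ℕ) : ZMod (p i0 ^ e i0)) := by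
    rintro x ⟨h2, _⟩
    obtain ⟨j, hj⟩ := div_aux (N := p i0 ^ e i0) (m := 2) (c := 2 ^ (k - 1)) (hi0.trans hkk)
      two_pos (by positivity) (x i0) (by have := congrFun h2 i0; rwa [Pi.smul_apply] at this)
    rcases Nat.even_or_odd' j with ⟨r, hr | hr⟩
    · left
      rw [hj, ZMod.natCast_eq_zero_iff, hi0, hkk, hr]
      exact ⟨r, by ring⟩
    · right
      have h3 : 2 ^ (k - 1) * j = p i0 ^ e i0 * r + 2 ^ (k - 1) := by
        rw [hi0, hkk, hr]; ring
      rw [hj, h3, Nat.cast_add, Nat.cast_mul, ZMod.natCast_self, zero_mul, zero_add]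
  have hUα : ∀ x ∈ U, α x ∈ U := by
    rintro x ⟨h2, z, hz⟩
    refine ⟨by rw [← map_nsmul, h2, map_zero], α z, by rw [← map_nsmul, ← hz]⟩
  have hkey : ∀ x ∈ U, (α x) i0 = x i0 := by
    intro x hx
    by_cases h0 : x i0 = 0
    · obtain ⟨z, hz⟩ := ha x hx h0
      rw [h0, hz, map_nsmul]
      exact hb (α z)
    · have h1 : (α x) i0 ≠ 0 := by
        intro h
        apply h0
        obtain ⟨z, hz⟩ := ha (α x) (hUα x hx) h
        have h4 : x = 2 ^ k • α.symm z := by
          rw [← map_nsmul, ← hz, α.symm_apply_apply]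
        rw [h4]
        exact hb _
      rcases hc x hx with h | h
      · exact absurd h h0
      · rcases hc (α x) (hUα x hx) with h' | h'
        · exact absurd h' h1
        · rw [h, h']
  have hsub : ∀ x ∈ U, α x - x ∈ U := by
    rintro x hx
    obtain ⟨h2, z, hz⟩ := hUα x hx
    obtain ⟨h2', z', hz'⟩ := hx
    refine ⟨by rw [smul_sub, h2, h2', sub_zero], z - z', ?_⟩
    rw [smul_sub, ← hz, ← hz']
  let g : U → U := fun x => ⟨α x.1 - x.1, hsub x.1 x.2⟩
  have hne : ∀ i, NeZero (p i ^ e i) := fun i => ⟨pow_ne_zero _ (hp i).ne_zero⟩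
  have hinj : Function.Injective g := by
    intro x x' h
    have h1 : α x.1 - x.1 = α x'.1 - x'.1 := congrArg Subtype.val h
    have h2 : α (x.1 - x'.1) = x.1 - x'.1 := by
      rw [map_sub]
      have := sub_eq_sub_iff_add_eq_add.1 h1
      rw [sub_eq_sub_iff_add_eq_add, this, add_comm]
    exact Subtype.ext (sub_eq_zero.1 (hno _ h2))
  have hsurj : Function.Surjective g := Finite.surjective_of_injective hinj
  have hy : Pi.single i0 ((2 ^ (k - 1) : ℕ) : ZMod (p i0 ^ e i0)) ∈ U := by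
    refine ⟨?_, Pi.single i0 1, ?_⟩
    · rw [← Pi.single_smul]
      have : 2 • ((2 ^ (k - 1) : ℕ) : ZMod (p i0 ^ e i0)) = 0 := by
        rw [nsmul_eq_mul, ← Nat.cast_mul, ← hkk, ← hi0, ZMod.natCast_self]
      rw [this, Pi.single_zero]
    · rw [← Pi.single_smul, nsmul_eq_mul, mul_one]
  obtain ⟨x, hx⟩ := hsurj ⟨_, hy⟩
  have h1 : α x.1 - x.1 = Pi.single i0 ((2 ^ (k - 1) : ℕ) : ZMod (p i0 ^ e i0)) :=
    congrArg Subtype.val hx
  have h2 := congrFun h1 i0
  rw [Pi.sub_apply, hkey x.1 x.2, sub_self, Pi.single_eq_same] at h2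
  have h3 := (ZMod.natCast_eq_zero_iff _ _).1 h2.symm
  rw [hi0] at h3
  have h4 := Nat.le_of_dvd (by positivity) h3
  have h5 : 0 < 2 ^ (k - 1) := by positivity
  omega

end Pool.Agent.R823.FX
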