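import Pool.Agent.R823.FX.Stm

/-! Piece DECS of PROJECT FX (MP_9085a3_al): construction of a fixed-point-free automorphism. -/

namespace Pool.Agent.R823.FX

namespace DecsAux

/-- the companion-type endomorphism of `R^(m+2)` -/
def comp (R : Type) [AddCommGroup R] (m : ℕ) : (Fin (m + 2) → R) →+ (Fin (m + 2) → R) where
  toFun x j := if h : j.1 < m + 1 then x ⟨j.1 + 1, by omega⟩ else x 0 + x 1
  map_zero' := by
    funext j
    split_ifs <;> simp
  map_add' x y := by
    funext j
    simp only [Pi.add_apply]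
    split_ifs
    · rfl
    · abel

theorem comp_lt (R : Type) [AddCommGroup R] (m : ℕ) (x : Fin (m + 2) → R) (j : ℕ)
    (h : j < m + 1) : comp R m x ⟨j, by omega⟩ = x ⟨j + 1, by omega⟩ := by
  change (if h : j < m + 1 then x ⟨j + 1, by omega⟩ else x 0 + x 1) = _
  rw [dif_pos h]

theorem comp_last (R : Type) [AddCommGroup R] (m : ℕ) (x : Fin (m + 2) → R) :
    comp R m x ⟨m + 1, by omega⟩ = x 0 + x 1 := by
  change (if h : m + 1 < m + 1 then x ⟨m + 1 + 1, by omega⟩ else x 0 + x 1) = _
  rw [dif_neg (lt_irrefl _)]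

theorem comp_inj (R : Type) [AddCommGroup R] (m : ℕ) : Function.Injective (comp R m) := by
  rw [injective_iff_map_eq_zero]
  intro x hx
  have h1 : ∀ j : ℕ, ∀ h : j < m + 1, x ⟨j + 1, by omega⟩ = 0 := by
    intro j h
    rw [← comp_lt R m x j h, hx]
    rfl
  have h2 : x 0 + x 1 = 0 := by
    rw [← comp_last R m x, hx]
    rfl
  have h3 : x 1 = 0 := h1 0 (by omega)
  have h4 : x 0 = 0 := by rwa [h3, add_zero] at h2
  funext j
  rcases j with ⟨j, hj⟩
  rcases j with _ | j
  · exact h4
  · exact h1 j (by omega)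

theorem comp_fix (R : Type) [AddCommGroup R] (m : ℕ) (x : Fin (m + 2) → R)
    (hx : comp R m x = x) : x = 0 := by
  have h1 : ∀ j : ℕ, ∀ h : j < m + 2, x ⟨j, h⟩ = x 0 := by
    intro j
    induction j with
    | zero => intro h; rfl
    | succ j ih =>
      intro h
      rw [← comp_lt R m x j (by omega), hx]
      exact ih (by omega)
  have h2 : x 0 + x 1 = x ⟨m + 1, by omega⟩ := by
    rw [← comp_last R m x, hx]
  rw [h1 (m + 1) (by omega)] at h2
  have h3 : x 1 = x 0 := h1 1 (by omega)
  rw [h3] at h2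
  have h4 : x 0 = 0 := by simpa using h2
  funext j
  rcases j with ⟨j, hj⟩
  rw [h1 j hj, h4]
  rfl

/-- a fixed-point-free automorphism of `R^F` when `F` has at least two elements -/
theorem two (R : Type) [AddCommGroup R] [Finite R] (F : Type) [Finite F]
    (hF : 2 ≤ Nat.card F) :
    ∃ α : (F → R) ≃+ (F → R), ∀ x, α x = x → x = 0 := by
  obtain ⟨m, hm⟩ := Nat.exists_eq_add_of_le hF
  have e : Fin (m + 2) ≃ F := (finCongr (by omega)).trans (Finite.equivFin F).symm
  let c : (Fin (m + 2) → R) ≃+ (Fin (m + 2) → R) :=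
    AddEquiv.ofBijective (comp R m) (Finite.injective_iff_bijective.1 (comp_inj R m))
  let g : (F → R) ≃+ (Fin (m + 2) → R) := (LinearEquiv.funCongrLeft ℤ R e).toAddEquiv
  refine ⟨g.trans (c.trans g.symm), fun x hx => ?_⟩
  have h1 : c (g x) = g x := by
    have h2 : g.symm (c (g x)) = x := hx
    rw [← g.symm_apply_eq]
    exact h2
  have h3 : g x = 0 := comp_fix R m (g x) h1
  rwa [map_eq_zero_iff g g.injective] at h3

/-- multiplication by two -/
theorem odd (n : ℕ) (hn : Nat.Coprime 2 n) (F : Type) :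
    ∃ α : (F → ZMod n) ≃+ (F → ZMod n), ∀ x, α x = x → x = 0 := by
  set u : (ZMod n)ˣ := ZMod.unitOfCoprime 2 hn with hu
  have hu2 : (u : ZMod n) = 2 := by
    rw [hu, ZMod.coe_unitOfCoprime]
    norm_num
  refine ⟨{ toFun := fun x j => (u : ZMod n) * x j
            invFun := fun x j => ((u⁻¹ : (ZMod n)ˣ) : ZMod n) * x j
            left_inv := fun x => by funext j; simp
            right_inv := fun x => by funext j; simp
            map_add' := fun x y => by funext j; simp [mul_add] }, fun x hx => ?_⟩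
  funext j
  have h1 : (u : ZMod n) * x j = x j := congrFun hx j
  rw [hu2, two_mul] at h1
  simpa using h1

/-- regrouping the factors of a product by their orders -/
def regroup {ι : Type} (N : ι → ℕ) :
    (∀ i, ZMod (N i)) ≃+ (∀ n : ℕ, {i // N i = n} → ZMod n) where
  toFun x n j := j.2 ▸ x j.1
  invFun y i := y (N i) ⟨i, rfl⟩
  left_inv x := rfl
  right_inv y := by
    funext n j
    rcases j with ⟨i, rfl⟩
    rfl
  map_add' x y := by
    funext n j
    rcases j with ⟨i, rfl⟩
    rfl

theorem glue {ι : Type} (N : ι → ℕ)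
    (h : ∀ n : ℕ, ∃ α : ({i // N i = n} → ZMod n) ≃+ ({i // N i = n} → ZMod n),
      ∀ x, α x = x → x = 0) :
    ∃ α : (∀ i, ZMod (N i)) ≃+ (∀ i, ZMod (N i)), ∀ x, α x = x → x = 0 := by
  choose β hβ using h
  let c : (∀ n : ℕ, {i // N i = n} → ZMod n) ≃+ (∀ n : ℕ, {i // N i = n} → ZMod n) :=
    AddEquiv.piCongrRight β
  let g := regroup N
  refine ⟨g.trans (c.trans g.symm), fun x hx => ?_⟩
  have h1 : c (g x) = g x := by
    have h2 : g.symm (c (g x)) = x := hx
    rw [← g.symm_apply_eq]
    exact h2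
  have h3 : g x = 0 := by
    funext n
    exact hβ n (g x n) (congrFun h1 n)
  rwa [map_eq_zero_iff g g.injective] at h3

end DecsAux

open DecsAux in
theorem sDECS : S_DECS := by
  intro ι _ p e hp he hcard
  refine glue (fun i => p i ^ e i) fun n => ?_
  rcases isEmpty_or_nonempty {i // p i ^ e i = n} with hE | ⟨⟨i, hi⟩⟩
  · exact ⟨AddEquiv.refl _, fun x _ => Subsingleton.elim _ _⟩
  · by_cases h2 : p i = 2
    · rw [h2] at hi
      have hn0 : NeZero n := ⟨by rw [← hi]; positivity⟩
      have h3 := hcard (e i) (he i)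
      rw [hi] at h3
      have h4 : 0 < Nat.card {i // p i ^ e i = n} := by
        have : Nonempty {i // p i ^ e i = n} := ⟨⟨i, by rw [h2]; exact hi⟩⟩
        exact Nat.card_pos
      exact two (ZMod n) {i // p i ^ e i = n} (by omega)
    · refine odd n ?_ _
      rw [← hi]
      apply Nat.Coprime.pow_right
      rw [Nat.coprime_primes Nat.prime_two (hp i)]
      exact fun h => h2 h.symm

end Pool.Agent.R823.FX
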