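import Pool.Agent.R823.FX.Stm

/-! Piece EMB of PROJECT FX (MP_9085a3_al): every subgroup of a finite abelian group is the
kernel of an endomorphism. -/

namespace Pool.Agent.R823.FX

universe u

namespace EmbP

/-- a finite abelian group is isomorphic to its dual -/
theorem dual (G : Type u) [CommGroup G] [Finite G] : Nonempty ((G →* ℂˣ) ≃* G) := by
  have h : NeZero (Monoid.exponent G) := ⟨Monoid.exponent_ne_zero_of_finite⟩
  exact CommGroup.monoidHom_mulEquiv_of_hasEnoughRootsOfUnity G ℂ

/-- a quotient of a finite abelian group embeds in the group -/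
theorem embed (G Q : Type u) [CommGroup G] [Finite G] [CommGroup Q] [Finite Q] (π : G →* Q)
    (hπ : Function.Surjective π) : ∃ f : Q →* G, Function.Injective f := by
  obtain ⟨e⟩ := dual G
  obtain ⟨e'⟩ := dual Q
  let r : (Q →* ℂˣ) →* (G →* ℂˣ) :=
    { toFun := fun χ => χ.comp π
      map_one' := rfl
      map_mul' := fun _ _ => rfl }
  have hr : Function.Injective r := by
    intro χ χ' h
    ext q
    obtain ⟨g, rfl⟩ := hπ q
    have h1 : (χ.comp π) g = (χ'.comp π) g := by
      have h2 : χ.comp π = χ'.comp π := h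
      rw [h2]
    rw [MonoidHom.comp_apply, MonoidHom.comp_apply] at h1
    rw [h1]
  let f : Q →* G := ((e : (G →* ℂˣ) →* G).comp r).comp (e'.symm : Q →* (Q →* ℂˣ))
  have hf : ⇑f = (⇑e ∘ ⇑r) ∘ ⇑e'.symm := rfl
  refine ⟨f, ?_⟩
  rw [hf]
  exact (e.injective.comp hr).comp e'.symm.injective

end EmbP

theorem sEMB : S_EMB.{u} := by
  intro A _ _ H
  obtain ⟨f, hf⟩ := EmbP.embed (Multiplicative A) (Multiplicative (A ⧸ H))
    (AddMonoidHom.toMultiplicative (QuotientAddGroup.mk' H)) (QuotientAddGroup.mk'_surjective H)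
  let f' : (A ⧸ H) →+ A := AddMonoidHom.toMultiplicative.symm f
  have hf' : Function.Injective f' := hf
  refine ⟨f'.comp (QuotientAddGroup.mk' H), ?_⟩
  ext x
  rw [AddMonoidHom.mem_ker, AddMonoidHom.comp_apply, map_eq_zero_iff f' hf',
    QuotientAddGroup.mk'_apply, QuotientAddGroup.eq_zero_iff]

end Pool.Agent.R823.FX
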