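import Pool.Agent.R823.FX.Stm

/-! # Project FX: FPF, a fixed-point-free automorphism implies property (F) -/

set_option autoImplicit false

namespace Pool.Agent.R823.FX

universe u

namespace FPFaux

variable {A : Type u} [AddCommGroup A]

/-- an automorphism as a unit of the endomorphism ring -/
def toU (e : A ≃+ A) : (AddMonoid.End A)ˣ where
  val := e.toAddMonoidHom
  inv := e.symm.toAddMonoidHom
  val_inv := by
    ext x
    exact e.apply_symm_apply x
  inv_val := by
    ext x
    exact e.symm_apply_apply x

/-- a unit of the endomorphism ring as an automorphism -/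
def ofU (γ : (AddMonoid.End A)ˣ) : A ≃+ A where
  toFun := fun x => (γ : AddMonoid.End A) x
  invFun := fun x => ((γ⁻¹ : (AddMonoid.End A)ˣ) : AddMonoid.End A) x
  left_inv := by
    intro x
    have := DFunLike.congr_fun γ.inv_mul x
    exact this
  right_inv := by
    intro x
    have := DFunLike.congr_fun γ.mul_inv x
    exact this
  map_add' := by
    intro x y
    exact map_add (γ : AddMonoid.End A) x y

end FPFaux

open FPFaux in
/-- FPF -/
theorem sFPF : S_RING.{u} → S_EMB.{u} → S_FPF.{u} := by
  intro hR hE A _ _ hα H
  obtain ⟨α, hα⟩ := hα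
  have hfin : Finite (AddMonoid.End A) :=
    Finite.of_injective (fun f : AddMonoid.End A => (f : A → A)) DFunLike.coe_injective
  let b0 : AddMonoid.End A := 1 - (toU α : AddMonoid.End A)
  have hb0 : ∀ x, b0 x = x - α x := fun x => rfl
  have hbinj : Function.Injective b0 := by
    rw [injective_iff_map_eq_zero]
    intro x hx
    apply hα
    rw [hb0] at hx
    exact (sub_eq_zero.1 hx).symm
  have hbbij : Function.Bijective b0 := Finite.injective_iff_bijective.1 hbinj
  let b : A ≃+ A := AddEquiv.ofBijective b0 hbbij
  have hb : ∀ x, b x = x - α x := fun x => hb0 x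
  obtain ⟨β, hβ⟩ := hE A H
  obtain ⟨θ, γ, hγ⟩ := hR (AddMonoid.End A) ⟨toU α, toU b, by
    ext x
    have h0 : ((toU α : AddMonoid.End A) + (toU b : AddMonoid.End A)) x = α x + b x := rfl
    rw [h0, hb]
    change α x + (x - α x) = x
    abel⟩ β
  refine ⟨ofU γ, fun x => ?_⟩
  have h1 : ofU γ x = x + (θ : AddMonoid.End A) (β x) := by
    have := DFunLike.congr_fun hγ x
    exact this
  rw [h1, ← hβ, AddMonoidHom.mem_ker]
  constructor
  · intro h
    rw [h, map_zero, add_zero]
  · intro h
    have h2 : (θ : AddMonoid.End A) (β x) = 0 := by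
      have h3 : x + (θ : AddMonoid.End A) (β x) = x + 0 := by rw [h, add_zero]
      exact add_left_cancel h3
    have h4 : ofU θ (β x) = ofU θ 0 := by
      rw [map_zero]
      exact h2
    exact (ofU θ).injective h4

end Pool.Agent.R823.FX
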