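import Pool.Agent.R823.FX.Stm

/-! Piece MAIN of PROJECT FX (MP_9085a3_al): the main theorem from the pieces. -/

namespace Pool.Agent.R823.FX

universe u

theorem sMAIN : S_FPF.{u} → S_DECN → S_DECS → S_MAIN.{u} := by
  intro hFPF hDECN hDECS ι _ p e hp he G _ φ
  have h13 : PropF G → ∃ α : G ≃* G, ∀ g, α g = g → g = 1 := by
    intro h
    obtain ⟨α, hα⟩ := h ⊥
    exact ⟨α, fun g hg => Subgroup.mem_bot.1 ((hα g).2 hg)⟩
  have h32 : (∃ α : G ≃* G, ∀ g, α g = g → g = 1) →
      ∀ k, 0 < k → Nat.card {i // p i ^ e i = 2 ^ k} ≠ 1 := by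
    rintro ⟨α, hα⟩ k hk hc
    obtain ⟨x, hx, hx0⟩ := hDECN ι p e hp he k hk hc
      (φ.symm.trans ((MulEquiv.toAdditive α).trans φ))
    apply hx0
    have h1 : MulEquiv.toAdditive α (φ.symm x) = φ.symm x := by
      have h0 : φ (MulEquiv.toAdditive α (φ.symm x)) = x := hx
      apply φ.injective
      rw [h0, φ.apply_symm_apply]
    have h2 : α (Additive.toMul (φ.symm x)) = Additive.toMul (φ.symm x) := h1
    have h3 := hα _ h2
    have h4 : φ.symm x = 0 := h3
    rwa [map_eq_zero_iff φ.symm φ.symm.injective] at h4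
  have h21 : (∀ k, 0 < k → Nat.card {i // p i ^ e i = 2 ^ k} ≠ 1) → PropF G := by
    intro h
    obtain ⟨α, hα⟩ := hDECS ι p e hp he h
    have : ∀ i, NeZero (p i ^ e i) := fun i => ⟨pow_ne_zero _ (hp i).ne_zero⟩
    have : Finite (∀ i, ZMod (p i ^ e i)) := Pi.finite
    have : Finite (Additive G) := Finite.of_equiv _ φ.symm.toEquiv
    have hA : PropFA (Additive G) := by
      refine hFPF (Additive G) ⟨φ.trans (α.trans φ.symm), fun x hx => ?_⟩
      have h1 : α (φ x) = φ x := by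
        have h2 : φ.symm (α (φ x)) = x := hx
        rw [← φ.symm_apply_eq]
        exact h2
      have h3 := hα _ h1
      rwa [map_eq_zero_iff φ φ.injective] at h3
    intro H
    obtain ⟨γ, hγ⟩ := hA (Subgroup.toAddSubgroup H)
    refine ⟨MulEquiv.toAdditive.symm γ, fun g => ?_⟩
    exact hγ (Additive.ofMul g)
  exact ⟨⟨fun h => h32 (h13 h), h21⟩, ⟨h13, fun h => h21 (h32 h)⟩⟩

end Pool.Agent.R823.FX
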