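import Pool.Agent.R823.FX.Stm

/-!
# Finite rings in which one is a sum of two units
-/

namespace Pool.Agent.R823.FX

universe u

namespace RING

/-- units lift modulo the Jacobson radical -/
theorem unit_lift (E : Type u) [Ring E] [Finite E] (x : E)
    (h : IsUnit (Ideal.Quotient.mk (Ring.jacobson E) x)) : IsUnit x := by
  have hart : IsArtinianRing E := inferInstance
  obtain ⟨u, hu⟩ := h
  obtain ⟨s, hs⟩ := Ideal.Quotient.mk_surjective (I := Ring.jacobson E) (↑u⁻¹ : E ⧸ Ring.jacobson E)
  have h1 : Ideal.Quotient.mk (Ring.jacobson E) (x * s - 1) = 0 := by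
    rw [map_sub, map_mul, ← hu, hs, map_one]
    simp
  have h2 : x * s - 1 ∈ Ring.jacobson E := Ideal.Quotient.eq_zero_iff_mem.1 h1
  obtain ⟨n, hn⟩ := IsSemiprimaryRing.isNilpotent (R := E)
  have h3 : (x * s - 1) ^ n = 0 := by
    have := Ideal.pow_mem_pow h2 n
    rw [hn] at this
    simpa using this
  have h4 : IsUnit (1 + (x * s - 1)) := IsNilpotent.isUnit_one_add ⟨n, h3⟩
  have h5 : 1 + (x * s - 1) = x * s := by abel
  rw [h5] at h4
  obtain ⟨v, hv⟩ := h4
  have h6 : x * (s * ↑v⁻¹) = 1 := by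
    rw [← mul_assoc, ← hv, Units.mul_inv]
  have h7 : (s * ↑v⁻¹) * x = 1 := mul_eq_one_symm h6
  exact ⟨⟨x, s * ↑v⁻¹, h6, h7⟩, rfl⟩

/-- the property -/
def Good (E : Type u) [Ring E] : Prop := ∀ β : E, ∃ t : E, IsUnit t ∧ IsUnit (1 + t * β)

theorem good_matrix (hM : S_MAT.{u}) (D : Type u) [Field D] [Finite D] (n : ℕ) (hn : n ≠ 0)
    (a b : Matrix (Fin n) (Fin n) D) (ha : IsUnit a) (hb : IsUnit b) (hab : a + b = 1) :
    Good (Matrix (Fin n) (Fin n) D) := by
  have hc : 1 < n ∨ 2 < Nat.card D := by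
    by_contra hcon
    push Not at hcon
    obtain ⟨h1, h2⟩ := hcon
    have hn1 : n = 1 := by omega
    subst hn1
    classical
    have key : ∀ x : D, x ≠ 0 → x = 1 := by
      intro x hx
      by_contra hx1
      have := Fintype.ofFinite D
      have h3 : ({0, 1, x} : Finset D).card ≤ Fintype.card D := Finset.card_le_univ _
      have h4 : ({0, 1, x} : Finset D).card = 3 := by
        rw [Finset.card_eq_three]
        exact ⟨0, 1, x, zero_ne_one, Ne.symm hx, fun h => hx1 h.symm, rfl⟩
      rw [Nat.card_eq_fintype_card] at h2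
      omega
    have h5 : ∀ c : Matrix (Fin 1) (Fin 1) D, IsUnit c → c 0 0 = 1 := by
      intro c hc
      apply key
      have := (Matrix.isUnit_iff_isUnit_det c).1 hc
      rw [Matrix.det_fin_one] at this
      exact this.ne_zero
    have h6 : a 0 0 + b 0 0 = 1 := by
      have := congrFun (congrFun hab 0) 0
      simpa using this
    rw [h5 a ha, h5 b hb] at h6
    have h7 : (1 : D) = 0 := by
      have : (1 : D) + 1 - 1 = 1 - 1 := by rw [h6]
      rwa [add_sub_cancel_right, sub_self] at this
    exact one_ne_zero h7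
  intro β
  obtain ⟨T, hT⟩ := hM D n hc β
  exact ⟨T, T.isUnit, hT⟩

theorem good_pi {ι : Type} (M : ι → Type u) [∀ i, Ring (M i)] (h : ∀ i, Good (M i)) :
    Good (∀ i, M i) := by
  intro β
  choose t ht1 ht2 using fun i => h i (β i)
  exact ⟨t, Pi.isUnit_iff.2 ht1, Pi.isUnit_iff.2 ht2⟩

theorem good_lift {E F : Type u} [Ring E] [Ring F] (π : E →+* F) (hs : Function.Surjective π)
    (hl : ∀ x, IsUnit (π x) → IsUnit x) (hF : Good F) : Good E := by
  intro β
  obtain ⟨t', h1, h2⟩ := hF (π β)
  obtain ⟨t, rfl⟩ := hs t'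
  refine ⟨t, hl t h1, hl _ ?_⟩
  rw [map_add, map_mul, map_one]
  exact h2

end RING

open RING in
theorem sRING (hM : S_MAT.{u}) : S_RING.{u} := by
  intro E _ _ hab β
  obtain ⟨a, b, hab⟩ := hab
  have hart : IsArtinianRing E := inferInstance
  have hgood : Good (E ⧸ Ring.jacobson E) := by
    obtain ⟨n, D, d, hD, hd, ⟨e⟩⟩ :=
      IsSemisimpleRing.exists_ringEquiv_pi_matrix_divisionRing (E ⧸ Ring.jacobson E)
    have hfq : Finite (E ⧸ Ring.jacobson E) :=
      Finite.of_surjective _ (Ideal.Quotient.mk_surjective (I := Ring.jacobson E))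
    have hfin : Finite (∀ i, Matrix (Fin (d i)) (Fin (d i)) (D i)) := Finite.of_equiv _ e.toEquiv
    have hG : Good (∀ i, Matrix (Fin (d i)) (Fin (d i)) (D i)) := by
      apply good_pi
      intro i
      have hdi : d i ≠ 0 := (hd i).out
      have hDi : Finite (D i) := by
        classical
        have i0 : Fin (d i) := ⟨0, Nat.pos_of_ne_zero hdi⟩
        refine Finite.of_injective (fun x : D i =>
          (Pi.single i (Matrix.scalar (Fin (d i)) x) :
            ∀ i, Matrix (Fin (d i)) (Fin (d i)) (D i))) ?_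
        intro x y hxy
        have h1 := congrFun hxy i
        simp only [Pi.single_eq_same] at h1
        have h2 := congrFun (congrFun h1 i0) i0
        simpa using h2
      refine good_matrix hM (D i) (d i) hdi
        (e (Ideal.Quotient.mk _ (a : E)) i) (e (Ideal.Quotient.mk _ (b : E)) i) ?_ ?_ ?_
      · have h1 := (a.isUnit.map (Ideal.Quotient.mk (Ring.jacobson E))).map e
        exact Pi.isUnit_iff.1 h1 i
      · have h1 := (b.isUnit.map (Ideal.Quotient.mk (Ring.jacobson E))).map e
        exact Pi.isUnit_iff.1 h1 i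
      · have h1 : e (Ideal.Quotient.mk _ (a : E)) + e (Ideal.Quotient.mk _ (b : E)) = 1 := by
          rw [← map_add, ← map_add, hab, map_one, map_one]
        have h2 := congrFun h1 i
        exact h2
    exact good_lift (e : (E ⧸ Ring.jacobson E) →+* _) e.surjective
      (fun x hx => by
        have := hx.map e.symm
        simpa using this) hG
  have hE : Good E := good_lift (Ideal.Quotient.mk (Ring.jacobson E)) Ideal.Quotient.mk_surjective
    (fun x hx => unit_lift E x hx) hgood
  obtain ⟨t, ht, h1⟩ := hE β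
  obtain ⟨θ, rfl⟩ := ht
  exact ⟨θ, h1⟩

end Pool.Agent.R823.FX
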