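import Pool.Agent.R823.FX.MAT
import Pool.Agent.R823.FX.RING
import Pool.Agent.R823.FX.EMB
import Pool.Agent.R823.FX.FPF
import Pool.Agent.R823.FX.DECN
import Pool.Agent.R823.FX.DECS
import Pool.Agent.R823.FX.MAIN

namespace Pool.Agent.R823.FX

universe u

theorem main : S_MAIN.{u} :=
  sMAIN (sFPF (sRING sMAT) sEMB) sDECN sDECS

end Pool.Agent.R823.FX
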