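import Pool.Agent.R823.FX.Stm

/-! FX-MAT: matrices over a finite field other than `1 × 1` matrices over `F_2` (helper127). -/

namespace Pool.Agent.R823.FX

universe u

open Matrix

namespace MatAux

variable {D : Type u} [Field D]

/-- many scalars -/
lemma big (n : ℕ) (h : ∀ d : D, ∃ s : D, s ≠ 0 ∧ 1 + s * d ≠ 0) (d : Fin n → D) :
    ∃ S : (Matrix (Fin n) (Fin n) D)ˣ,
      IsUnit (1 + (S : Matrix (Fin n) (Fin n) D) * Matrix.diagonal d) := by
  classical
  choose s hs0 hs1 using h
  have h1 : IsUnit (Matrix.diagonal (fun i => s (d i))) := by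
    rw [← mulVec_injective_iff_isUnit]
    intro x y hxy
    funext i
    have := congrFun hxy i
    rw [mulVec_diagonal, mulVec_diagonal] at this
    exact mul_left_cancel₀ (hs0 _) this
  obtain ⟨S, hS⟩ := h1
  refine ⟨S, ?_⟩
  rw [hS, diagonal_mul_diagonal, ← diagonal_one, diagonal_add, ← mulVec_injective_iff_isUnit]
  intro x y hxy
  funext i
  have := congrFun hxy i
  rw [mulVec_diagonal, mulVec_diagonal] at this
  exact mul_left_cancel₀ (hs1 _) this

/-- `F_2`, some zero -/
lemma two_zero (n : ℕ) (d : Fin (n + 2) → D) (i0 : Fin (n + 2)) (h0 : d i0 = 0) :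
    ∃ S : (Matrix (Fin (n + 2)) (Fin (n + 2)) D)ˣ,
      IsUnit (1 + (S : Matrix (Fin (n + 2)) (Fin (n + 2)) D) * Matrix.diagonal d) := by
  classical
  let M : Matrix (Fin (n + 2)) (Fin (n + 2)) D := Matrix.of fun i j => if j + 1 = i then 1 else 0
  have hM : ∀ (x : Fin (n + 2) → D) (i : Fin (n + 2)), (M *ᵥ x) (i + 1) = x i := by
    intro x i
    simp only [M, mulVec, dotProduct, of_apply, add_left_inj]
    simp
  have h1 : IsUnit M := by
    rw [← mulVec_injective_iff_isUnit]
    intro x y hxy
    funext i
    have := congrFun hxy (i + 1)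
    rw [hM, hM] at this
    exact this
  obtain ⟨S, hS⟩ := h1
  refine ⟨S, ?_⟩
  rw [hS, ← mulVec_injective_iff_isUnit]
  have hker : ∀ x : Fin (n + 2) → D, (1 + M * Matrix.diagonal d) *ᵥ x = 0 → x = 0 := by
    intro x hx
    have hx1 : ∀ i, x (i + 1) + d i * x i = 0 := by
      intro i
      have := congrFun hx (i + 1)
      rw [add_mulVec, one_mulVec, ← mulVec_mulVec] at this
      simp only [Pi.add_apply, Pi.zero_apply] at this
      rw [hM, mulVec_diagonal] at this
      exact this
    have hx2 : ∀ k : ℕ, ∀ i : Fin (n + 2), (i - (i0 + 1)).val = k → x i = 0 := by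
      intro k
      induction k with
      | zero =>
        intro i hi
        have h3 : i - (i0 + 1) = 0 := Fin.ext hi
        have h4 : i = i0 + 1 := sub_eq_zero.1 h3
        have := hx1 i0
        rw [h0, zero_mul, add_zero] at this
        rw [h4]
        exact this
      | succ k ih =>
        intro i hi
        have hne : i - (i0 + 1) ≠ 0 := by
          intro h
          rw [h] at hi
          simp at hi
        have h3 : ((i - 1) - (i0 + 1)).val = k := by
          have h4 : (i - 1) - (i0 + 1) = (i - (i0 + 1)) - 1 := by abel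
          rw [h4, Fin.val_sub_one_of_ne_zero hne, hi]
          rfl
        have h5 := hx1 (i - 1)
        rw [ih (i - 1) h3, mul_zero, add_zero, sub_add_cancel] at h5
        exact h5
    funext i
    exact hx2 _ i rfl
  intro x y hxy
  have := hker (x - y) (by rw [mulVec_sub]; exact sub_eq_zero.2 hxy)
  exact sub_eq_zero.1 this

/-- `F_2`, the identity -/
lemma two_one (n : ℕ) (h2 : (2 : D) = 0) :
    ∃ S : (Matrix (Fin (n + 2)) (Fin (n + 2)) D)ˣ,
      IsUnit (1 + (S : Matrix (Fin (n + 2)) (Fin (n + 2)) D)) := by
  classical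
  have hadd : ∀ a b : D, a + b = 0 → a = b := by
    intro a b h
    linear_combination h - b * h2
  let M : Matrix (Fin (n + 2)) (Fin (n + 2)) D := Matrix.of fun i j =>
    (if j = i + 1 then 1 else 0) + (if i = Fin.last (n + 1) then (if j = 1 then 1 else 0) else 0)
  have hM : ∀ (x : Fin (n + 2) → D) (i : Fin (n + 2)),
      (M *ᵥ x) i = x (i + 1) + if i = Fin.last (n + 1) then x 1 else 0 := by
    intro x i
    simp only [M, mulVec, dotProduct, of_apply, add_mul, Finset.sum_add_distrib]
    congr 1
    · simp
    · split_ifs <;> simp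
  have hlast : (Fin.last (n + 1)) + 1 = (0 : Fin (n + 2)) := Fin.last_add_one (n + 1)
  have h0l : (0 : Fin (n + 2)) ≠ Fin.last (n + 1) := by
    intro h
    have := congrArg Fin.val h
    simp at this
  have h1 : IsUnit M := by
    rw [← mulVec_injective_iff_isUnit]
    have hker : ∀ x : Fin (n + 2) → D, M *ᵥ x = 0 → x = 0 := by
      intro x hx
      have hx1 : ∀ i, x (i + 1) + (if i = Fin.last (n + 1) then x 1 else 0) = 0 := by
        intro i
        rw [← hM]
        exact congrFun hx i
      have hx2 : x 1 = 0 := by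
        have := hx1 0
        rw [if_neg h0l, add_zero, zero_add] at this
        exact this
      have hx3 : ∀ i, x (i + 1) = 0 := by
        intro i
        have := hx1 i
        rw [hx2] at this
        simpa using this
      funext i
      have := hx3 (i - 1)
      rw [sub_add_cancel] at this
      exact this
    intro x y hxy
    have := hker (x - y) (by rw [mulVec_sub]; exact sub_eq_zero.2 hxy)
    exact sub_eq_zero.1 this
  obtain ⟨S, hS⟩ := h1
  refine ⟨S, ?_⟩
  rw [hS, ← mulVec_injective_iff_isUnit]
  have hker : ∀ x : Fin (n + 2) → D, (1 + M) *ᵥ x = 0 → x = 0 := by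
    intro x hx
    have hx1 : ∀ i, x i + (x (i + 1) + (if i = Fin.last (n + 1) then x 1 else 0)) = 0 := by
      intro i
      rw [← hM]
      have := congrFun hx i
      rw [add_mulVec, one_mulVec] at this
      exact this
    have hx2 : ∀ k : ℕ, ∀ hk : k < n + 2, x ⟨k, hk⟩ = x 0 := by
      intro k
      induction k with
      | zero => intro hk; rfl
      | succ k ih =>
        intro hk
        have hk' : k < n + 2 := by omega
        have hne : (⟨k, hk'⟩ : Fin (n + 2)) ≠ Fin.last (n + 1) := by
          intro h
          have := congrArg Fin.val h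
          simp at this
          omega
        have h3 := hx1 ⟨k, hk'⟩
        rw [if_neg hne, add_zero] at h3
        have h4 : (⟨k, hk'⟩ : Fin (n + 2)) + 1 = ⟨k + 1, hk⟩ := by
          apply Fin.ext
          rw [Fin.val_add_one_of_lt]
          rw [Fin.lt_def]
          simp
          omega
        rw [h4] at h3
        rw [← hadd _ _ h3, ih hk']
    have hx3 : ∀ i, x i = x 0 := fun i => hx2 i i.2
    have hx4 := hx1 (Fin.last (n + 1))
    rw [if_pos rfl, hx3 (Fin.last (n + 1)), hx3 (Fin.last (n + 1) + 1), hx3 1] at hx4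
    have hx5 : x 0 = 0 := by linear_combination hx4 - x 0 * h2
    funext i
    rw [hx3 i, hx5]
    rfl
  intro x y hxy
  have := hker (x - y) (by rw [mulVec_sub]; exact sub_eq_zero.2 hxy)
  exact sub_eq_zero.1 this

lemma diag [Finite D] (n : ℕ) (h : 1 < n ∨ 2 < Nat.card D) (d : Fin n → D) :
    ∃ S : (Matrix (Fin n) (Fin n) D)ˣ,
      IsUnit (1 + (S : Matrix (Fin n) (Fin n) D) * Matrix.diagonal d) := by
  classical
  have : Fintype D := Fintype.ofFinite D
  by_cases hc : 2 < Nat.card D
  · refine big n ?_ d
    intro a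
    by_contra hcon
    push Not at hcon
    have hsub : (Finset.univ : Finset D) ⊆ {0, -a⁻¹} := by
      intro s _
      by_cases hs : s = 0
      · simp [hs]
      · have h1 := hcon s hs
        have ha : a ≠ 0 := by
          intro ha
          rw [ha] at h1
          simp at h1
        have : s = -a⁻¹ := by
          field_simp
          linear_combination h1
        simp [this]
    have h2 := Finset.card_le_card hsub
    have h3 : ({0, -a⁻¹} : Finset D).card ≤ 2 := Finset.card_le_two
    rw [Finset.card_univ, ← Nat.card_eq_fintype_card] at h2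
    omega
  · have hn : 1 < n := h.resolve_right hc
    obtain ⟨m, rfl⟩ : ∃ m, n = m + 2 := ⟨n - 2, by omega⟩
    have hcard : Fintype.card D = 2 := by
      have h1 : 1 < Fintype.card D := Fintype.one_lt_card
      rw [Nat.card_eq_fintype_card] at hc
      omega
    have h2 : (2 : D) = 0 := by
      have := FiniteField.cast_card_eq_zero D
      rw [hcard] at this
      exact_mod_cast this
    have h01 : ∀ a : D, a = 0 ∨ a = 1 := by
      intro a
      have := FiniteField.pow_card a
      rw [hcard] at this
      have h3 : a * (a - 1) = 0 := by linear_combination this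
      rcases mul_eq_zero.1 h3 with h | h
      · exact Or.inl h
      · exact Or.inr (sub_eq_zero.1 h)
    by_cases hz : ∃ i, d i = 0
    · obtain ⟨i0, hi0⟩ := hz
      exact two_zero m d i0 hi0
    · push Not at hz
      have hd : d = fun _ => 1 := by
        funext i
        exact (h01 (d i)).resolve_left (hz i)
      obtain ⟨S, hS⟩ := two_one (D := D) m h2
      refine ⟨S, ?_⟩
      have h4 : Matrix.diagonal d = (1 : Matrix (Fin (m + 2)) (Fin (m + 2)) D) := by
        rw [hd]
        exact diagonal_one
      rw [h4, mul_one]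
      exact hS

end MatAux

open MatAux in
/-- FX-MAT -/
theorem sMAT : S_MAT.{u} := by
  classical
  intro D _ _ n h B
  obtain ⟨L, L', d, hd⟩ := Matrix.Pivot.exists_list_transvec_mul_mul_list_transvec_eq_diagonal B
  have hP : IsUnit (L.map TransvectionStruct.toMatrix).prod := by
    rw [isUnit_iff_isUnit_det, TransvectionStruct.det_toMatrix_prod]
    exact isUnit_one
  have hQ : IsUnit (L'.map TransvectionStruct.toMatrix).prod := by
    rw [isUnit_iff_isUnit_det, TransvectionStruct.det_toMatrix_prod]
    exact isUnit_one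
  obtain ⟨P, hP⟩ := hP
  obtain ⟨Q, hQ⟩ := hQ
  rw [← hP, ← hQ] at hd
  obtain ⟨S, hS⟩ := diag n h d
  refine ⟨Q * S * P, ?_⟩
  have e : 1 + ((Q * S * P : (Matrix (Fin n) (Fin n) D)ˣ) : Matrix (Fin n) (Fin n) D) * B
      = (Q : Matrix (Fin n) (Fin n) D) * (1 + (S : Matrix (Fin n) (Fin n) D) * Matrix.diagonal d)
        * ((Q⁻¹ : (Matrix (Fin n) (Fin n) D)ˣ) : Matrix (Fin n) (Fin n) D) := by
    rw [← hd, mul_add, mul_one, add_mul, Units.mul_inv]
    congr 1
    simp only [Units.val_mul, mul_assoc, Units.mul_inv, mul_one]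
  rw [e]
  exact (Q.isUnit.mul hS).mul (Q⁻¹).isUnit

end Pool.Agent.R823.FX
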