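import Mathlib

/-! Exact statements of the pieces of PROJECT FX (MP_9085a3_al): abelian groups in which every
subgroup is the fixed-point subgroup of an automorphism. -/

namespace Pool.Agent.R823.FX

universe u

/-- property (F): every subgroup is `C_G(α)` for some automorphism `α`. -/
def PropF (G : Type u) [Group G] : Prop :=
  ∀ H : Subgroup G, ∃ α : G ≃* G, ∀ g : G, g ∈ H ↔ α g = g

/-- additive version of property (F). -/
def PropFA (A : Type u) [AddCommGroup A] : Prop :=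
  ∀ H : AddSubgroup A, ∃ α : A ≃+ A, ∀ x : A, x ∈ H ↔ α x = x

/-- matrices over a finite field other than `1 × 1` matrices over `F_2`. -/
def S_MAT : Prop := ∀ (D : Type u) [Field D] [Finite D] (n : ℕ) (_ : 1 < n ∨ 2 < Nat.card D)
  (B : Matrix (Fin n) (Fin n) D),
  ∃ T : (Matrix (Fin n) (Fin n) D)ˣ, IsUnit (1 + (T : Matrix (Fin n) (Fin n) D) * B)

/-- a finite ring in which `1` is a sum of two units. -/
def S_RING : Prop := ∀ (E : Type u) [Ring E] [Finite E] (_ : ∃ a b : Eˣ, (a : E) + b = 1) (β : E),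
  ∃ θ : Eˣ, IsUnit (1 + (θ : E) * β)

/-- every subgroup of a finite abelian group is the kernel of an endomorphism. -/
def S_EMB : Prop := ∀ (A : Type u) [AddCommGroup A] [Finite A] (H : AddSubgroup A),
  ∃ β : A →+ A, β.ker = H

/-- a finite abelian group with a fixed-point-free automorphism has property (F). -/
def S_FPF : Prop := ∀ (A : Type u) [AddCommGroup A] [Finite A]
  (_ : ∃ α : A ≃+ A, ∀ x, α x = x → x = 0), PropFA A

/-- if a cyclic group of order `2^k` occurs with multiplicity one, there is no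
fixed-point-free automorphism. -/
def S_DECN : Prop := ∀ (ι : Type) [Fintype ι] (p e : ι → ℕ) (_ : ∀ i, (p i).Prime)
  (_ : ∀ i, 0 < e i) (k : ℕ) (_ : 0 < k) (_ : Nat.card {i // p i ^ e i = 2 ^ k} = 1)
  (α : (∀ i, ZMod (p i ^ e i)) ≃+ (∀ i, ZMod (p i ^ e i))), ∃ x, α x = x ∧ x ≠ 0

/-- otherwise there is one. -/
def S_DECS : Prop := ∀ (ι : Type) [Fintype ι] (p e : ι → ℕ) (_ : ∀ i, (p i).Prime)
  (_ : ∀ i, 0 < e i) (_ : ∀ k, 0 < k → Nat.card {i // p i ^ e i = 2 ^ k} ≠ 1),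
  ∃ α : (∀ i, ZMod (p i ^ e i)) ≃+ (∀ i, ZMod (p i ^ e i)), ∀ x, α x = x → x = 0

/-- the main theorem. -/
def S_MAIN : Prop := ∀ (ι : Type) [Fintype ι] (p e : ι → ℕ) (_ : ∀ i, (p i).Prime)
  (_ : ∀ i, 0 < e i) (G : Type u) [CommGroup G] (_ : Additive G ≃+ ∀ i, ZMod (p i ^ e i)),
  (PropF G ↔ ∀ k, 0 < k → Nat.card {i // p i ^ e i = 2 ^ k} ≠ 1) ∧
  (PropF G ↔ ∃ α : G ≃* G, ∀ g, α g = g → g = 1)

end Pool.Agent.R823.FX
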